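import Pool.Agent.H815.QC.Stm

set_option autoImplicit false

namespace Pool.Agent.H782.QC

open Pool.Agent.H815.QC Pool.Agent.Y110.FJ Pool.Agent.T2H65.GP

/-! ### centralizers -/

theorem cc_pb (hB2 : S_B2) {N : Type} [Group N] (α : N →* P1) (hα : Function.Injective α)
    (g : P1) (S : V1 → Prop) (hS : Ind Γ1 S) : CC (pb Γ1 B1 α g S) := by
  intro d hd hd1
  have hcyc : ∀ v, IsCyclic (B1 v) := fun v => inferInstance
  have hd2 : g⁻¹ * α d * g ≠ 1 := by
    intro h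
    apply hd1
    apply hα
    rw [map_one]
    have h1 : α d = g * (g⁻¹ * α d * g) * g⁻¹ := by group
    rw [h1, h]
    group
  obtain ⟨z, hz⟩ := hB2 V1 Γ1 B1 hcyc S hS (g⁻¹ * α d * g) (mem_pb.mp hd) hd2
  let φ : N →* P1 := (MulAut.conj g⁻¹).toMonoidHom.comp α
  have hφ : ∀ n, φ n = g⁻¹ * α n * g := by
    intro n
    show g⁻¹ * α n * (g⁻¹)⁻¹ = g⁻¹ * α n * g
    rw [inv_inv]
  have hinj : Function.Injective φ := by
    intro a b hab
    rw [hφ, hφ] at hab
    exact hα (mul_left_cancel (mul_right_cancel hab))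
  let C : Subgroup N := (Subgroup.zpowers z).comap φ
  let f : C →* Subgroup.zpowers z :=
    { toFun := fun c => ⟨φ c.1, c.2⟩
      map_one' := Subtype.ext (map_one φ)
      map_mul' := fun a b => Subtype.ext (map_mul φ a.1 b.1) }
  have hf : Function.Injective f := by
    intro a b hab
    exact Subtype.ext (hinj (congrArg Subtype.val hab))
  have hC : IsCyclic C := isCyclic_of_injective f hf
  obtain ⟨w, hw⟩ := hC.exists_generator
  refine ⟨w.1, fun y hy hyd => ?_⟩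
  have h1 : (g⁻¹ * α y * g) * (g⁻¹ * α d * g) = (g⁻¹ * α d * g) * (g⁻¹ * α y * g) := by
    have h2 : α y * α d = α d * α y := by rw [← map_mul, hyd, map_mul]
    have e1 : (g⁻¹ * α y * g) * (g⁻¹ * α d * g) = g⁻¹ * (α y * α d) * g := by group
    have e2 : (g⁻¹ * α d * g) * (g⁻¹ * α y * g) = g⁻¹ * (α d * α y) * g := by group
    rw [e1, e2, h2]
  have h3 := hz (g⁻¹ * α y * g) (mem_pb.mp hy) h1
  have h4 : y ∈ C := by
    show φ y ∈ Subgroup.zpowers z
    rw [hφ]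
    exact h3
  obtain ⟨i, hi⟩ := Subgroup.mem_zpowers_iff.mp (hw ⟨y, h4⟩)
  rw [Subgroup.mem_zpowers_iff]
  refine ⟨i, ?_⟩
  exact congrArg Subtype.val hi

/-! ### noncommuting elements -/

/-- the homomorphism given by an involution -/
def inv2 {H : Type} [Group H] (x : H) (hx : x * x = 1) : Multiplicative (ZMod 2) →* H where
  toFun b := if b = 1 then 1 else x
  map_one' := if_pos rfl
  map_mul' a b := by
    have key : ∀ a : Multiplicative (ZMod 2), a = 1 ∨ a = Multiplicative.ofAdd 1 := by decide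
    have h1 : (Multiplicative.ofAdd 1 : Multiplicative (ZMod 2)) ≠ 1 := by decide
    have h2 : (Multiplicative.ofAdd 1 : Multiplicative (ZMod 2)) * Multiplicative.ofAdd 1 = 1 := by
      decide
    rcases key a with rfl | rfl
    · rw [one_mul, if_pos rfl, one_mul]
    · rcases key b with rfl | rfl
      · rw [mul_one, if_pos rfl, mul_one]
      · rw [h2, if_pos rfl, if_neg h1, hx]

theorem inv2_one {H : Type} [Group H] (x : H) (hx : x * x = 1) :
    inv2 x hx (Multiplicative.ofAdd 1) = x := by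
  have h : ¬ (Multiplicative.ofAdd 1 : Multiplicative (ZMod 2)) = 1 := by decide
  show (if (Multiplicative.ofAdd 1 : Multiplicative (ZMod 2)) = 1 then (1 : H) else x) = x
  rw [if_neg h]

/-- three matrices of order two -/
def mats (i : Fin 3) : Matrix (Fin 2) (Fin 2) ℤ :=
  if i = 0 then !![1, 0; 0, -1] else if i = 1 then !![1, 1; 0, -1] else !![1, 0; -1, -1]

theorem mats_sq (i : Fin 3) : mats i * mats i = 1 := by
  fin_cases i
  all_goals
    ext a b
    fin_cases a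
    all_goals
      fin_cases b
      all_goals simp [mats, Matrix.mul_apply, Fin.sum_univ_two]

/-- the same in the group of units -/
def mu (i : Fin 3) : (Matrix (Fin 2) (Fin 2) ℤ)ˣ := ⟨mats i, mats i, mats_sq i, mats_sq i⟩

theorem mu_sq (i : Fin 3) : mu i * mu i = 1 := Units.ext (mats_sq i)

theorem pow1 (m : ℕ) : (((mu 0 * mu 1) ^ m : (Matrix (Fin 2) (Fin 2) ℤ)ˣ) :
    Matrix (Fin 2) (Fin 2) ℤ) = !![1, (m : ℤ); 0, 1] := by
  induction m with
  | zero =>
    rw [pow_zero, Units.val_one]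
    ext a b
    fin_cases a <;> fin_cases b <;> simp
  | succ m ih =>
    rw [pow_succ, Units.val_mul, ih]
    ext a b
    fin_cases a <;> fin_cases b <;>
      simp [mu, mats, Matrix.mul_apply, Fin.sum_univ_two, add_comm]

theorem pow2 (m : ℕ) : (((mu 0 * mu 2) ^ m : (Matrix (Fin 2) (Fin 2) ℤ)ˣ) :
    Matrix (Fin 2) (Fin 2) ℤ) = !![1, 0; (m : ℤ), 1] := by
  induction m with
  | zero =>
    rw [pow_zero, Units.val_one]
    ext a b
    fin_cases a <;> fin_cases b <;> simp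
  | succ m ih =>
    rw [pow_succ, Units.val_mul, ih]
    ext a b
    fin_cases a <;> fin_cases b <;>
      simp [mu, mats, Matrix.mul_apply, Fin.sum_univ_two]

open Classical in
/-- the homomorphism to matrices -/
noncomputable def toM (v : Fin 5) : P1 →* (Matrix (Fin 2) (Fin 2) ℤ)ˣ :=
  glift (Λ := Γ1) (B := B1) (fun a => if a.1 = v then inv2 (mu a.2) (mu_sq a.2) else 1) (by
    intro a b hab x y
    have h1 : ¬ (a.1 = v ∧ b.1 = v) := by
      rintro ⟨h1, h2⟩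
      have h3 : b.1 = a.1 + 1 ∨ a.1 = b.1 + 1 := hab
      rw [h1, h2] at h3
      have : ∀ x : Fin 5, ¬ (x = x + 1 ∨ x = x + 1) := by decide
      exact this _ h3
    by_cases ha : a.1 = v
    · have hb : ¬ b.1 = v := fun h => h1 ⟨ha, h⟩
      rw [if_neg hb, MonoidHom.one_apply, one_mul, mul_one]
    · rw [if_neg ha, MonoidHom.one_apply, one_mul, mul_one])

/-- the generators -/
noncomputable def gn (a : V1) : P1 := GrP.of Γ1 B1 a (Multiplicative.ofAdd 1)

theorem toM_gn (v : Fin 5) (i : Fin 3) : toM v (gn (v, i)) = mu i := by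
  unfold toM gn
  rw [glift_of, if_pos rfl, inv2_one]

theorem gn_mem (S : V1 → Prop) (a : V1) (h : S a) : gn a ∈ std Γ1 B1 S :=
  vg_le_std Γ1 B1 h ⟨_, rfl⟩

theorem na_Hs {N : Type} [Group N] (α : N →* P1) (hα : Vir α) (v : Fin 5) (g : P1) :
    NA (Hs α v g) := by
  have hidx : α.range.index ≠ 0 := hα.2.index_ne_zero
  have key : ∀ x ∈ std Γ1 B1 (cl v), ∃ m : ℕ, 0 < m ∧ ∃ n ∈ Hs α v g, α n = g * x ^ m * g⁻¹ := by
    intro x hx
    obtain ⟨m, hm, -, hm2⟩ := Subgroup.exists_pow_mem_of_index_ne_zero hidx (g * x * g⁻¹)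
    obtain ⟨n, hn⟩ := hm2
    rw [conj_pow] at hn
    refine ⟨m, hm, n, ?_, hn⟩
    unfold Hs
    rw [mem_pb, hn]
    have e : g⁻¹ * (g * x ^ m * g⁻¹) * g = x ^ m := by group
    rw [e]
    exact pow_mem hx m
  obtain ⟨m1, hm1, n1, hn1, e1⟩ := key (gn (v, 0) * gn (v, 1))
    (mul_mem (gn_mem _ _ rfl) (gn_mem _ _ rfl))
  obtain ⟨m2, hm2, n2, hn2, e2⟩ := key (gn (v, 0) * gn (v, 2))
    (mul_mem (gn_mem _ _ rfl) (gn_mem _ _ rfl))
  refine ⟨n1, hn1, n2, hn2, fun hcomm => ?_⟩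
  have h1 : α n1 * α n2 = α n2 * α n1 := by rw [← map_mul, hcomm, map_mul]
  rw [e1, e2] at h1
  have h2 : (gn (v, 0) * gn (v, 1)) ^ m1 * (gn (v, 0) * gn (v, 2)) ^ m2 =
      (gn (v, 0) * gn (v, 2)) ^ m2 * (gn (v, 0) * gn (v, 1)) ^ m1 := by
    obtain ⟨X, hX⟩ : ∃ X, (gn (v, 0) * gn (v, 1)) ^ m1 = X := ⟨_, rfl⟩
    obtain ⟨Y, hY⟩ : ∃ Y, (gn (v, 0) * gn (v, 2)) ^ m2 = Y := ⟨_, rfl⟩
    rw [hX, hY] at h1 ⊢
    have f1 : g * X * g⁻¹ * (g * Y * g⁻¹) = g * (X * Y) * g⁻¹ := by group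
    have f2 : g * Y * g⁻¹ * (g * X * g⁻¹) = g * (Y * X) * g⁻¹ := by group
    rw [f1, f2] at h1
    exact mul_left_cancel (mul_right_cancel h1)
  have h3 := congrArg (toM v) h2
  rw [map_mul, map_mul, map_pow, map_pow, map_mul, map_mul, toM_gn, toM_gn, toM_gn] at h3
  have h4 := congrArg (fun u : (Matrix (Fin 2) (Fin 2) ℤ)ˣ => (u : Matrix (Fin 2) (Fin 2) ℤ) 0 0) h3
  simp only [Units.val_mul, pow1, pow2, Matrix.mul_apply, Fin.sum_univ_two, Matrix.of_apply,
    Matrix.cons_val', Matrix.cons_val_zero, Matrix.cons_val_one] at h4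
  have h5 : (0 : ℤ) < (m1 : ℤ) * (m2 : ℤ) := by positivity
  simp at h4
  omega

theorem na_mono {N : Type} [Group N] {H K : Subgroup N} (h : H ≤ K) (hH : NA H) : NA K := by
  obtain ⟨a, ha, b, hb, hab⟩ := hH
  exact ⟨a, h ha, b, h hb, hab⟩

theorem P1_proof (hB2 : S_B2) (_hB3 : S_B3) : Pool.Agent.H815.QC.S_P1 := by
  intro N _ α hα _ v g
  have hcl : ∀ v, Ind Γ1 (cl v) := by
    intro v s t hs ht h
    have h3 : t.1 = s.1 + 1 ∨ s.1 = t.1 + 1 := h
    have hs' : s.1 = v := hs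
    have ht' : t.1 = v := ht
    rw [hs', ht'] at h3
    have : ∀ x : Fin 5, ¬ (x = x + 1 ∨ x = x + 1) := by decide
    exact this _ h3
  have hnb : ∀ v, Ind Γ1 (nb v) := by
    intro v s t hs ht h
    have h3 : t.1 = s.1 + 1 ∨ s.1 = t.1 + 1 := h
    have hs' : s.1 = v + 1 ∨ v = s.1 + 1 := hs
    have ht' : t.1 = v + 1 ∨ v = t.1 + 1 := ht
    have : ∀ v x y : Fin 5, (x = v + 1 ∨ v = x + 1) → (y = v + 1 ∨ v = y + 1) →
        ¬ (y = x + 1 ∨ x = y + 1) := by decide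
    exact this v s.1 t.1 hs' ht' h3
  refine ⟨cc_pb hB2 α hα.1 g _ (hcl v), cc_pb hB2 α hα.1 g _ (hnb v), na_Hs α hα v g, ?_⟩
  refine na_mono ?_ (na_Hs α hα (v + 1) g)
  intro n hn
  have h1 : g⁻¹ * α n * g ∈ std Γ1 B1 (cl (v + 1)) := mem_pb.mp hn
  exact mem_pb.mpr (std_mono Γ1 B1 (fun a ha => Or.inl ha) h1)

end Pool.Agent.H782.QC
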